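import Mathlib
import Pool.Agent.H55.FE.Stm

set_option autoImplicit false

/-!
# The two sides for the generic dimension (modules hvp and hvn)
-/

namespace Pool.Agent.H93.FE

open Pool.Agent.W608.PR Pool.Agent.H55.FE

theorem sz_eq (E v : ℕ) : sz E v = K4H38FP.nc (E + 1) v := by
  unfold sz K4H38FP.nc
  congr 1
  omega

theorem Nn_eq (E e : ℕ) : Nn E e = (E + 1 + e).choose (E + 1) := by
  unfold Nn
  congr 1
  omega

theorem cN_eq (n : ℕ) : cN n = K4H38CX.cc n := rfl

/-- **MODULE hvn** -/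
theorem hvn : S_hvn := by
  intro E m e s hE hs h
  by_contra h0
  obtain ⟨l0, hl0⟩ : ∃ l0 : List ℕ, l0 = s.sort (· ≥ ·) := ⟨_, rfl⟩
  have hp : l0.Pairwise (· ≥ ·) := by
    rw [hl0]
    exact Multiset.pairwise_sort _ _
  have hc : (l0 : Multiset ℕ) = s := by
    rw [hl0]
    exact Multiset.sort_eq _ _
  obtain ⟨L, hL⟩ : ∃ L, L = l0.take (K4H38CX.cc (E + 1)) := ⟨_, rfl⟩
  obtain ⟨l, hl⟩ : ∃ l, l = l0.drop (K4H38CX.cc (E + 1)) := ⟨_, rfl⟩
  have hLl : L ++ l = l0 := by rw [hL, hl, List.take_append_drop]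
  have h1 := K4H38CX.tail_super (n := E + 1) (by omega) e (L := L) (l := l) (by rw [hLl]; exact hp)
    (by
      rcases le_or_gt (K4H38CX.cc (E + 1)) l0.length with h2 | h2
      · left
        rw [hL, List.length_take]
        omega
      · right
        rw [hl]
        exact List.drop_eq_nil_of_le h2.le) (by rw [hLl, hc]; exact h0)
  rw [hLl, hc] at h1
  have h2 : (L.map (K4H38FP.nc (E + 1))).sum ≤ K4H38CX.cc (E + 1) * sz E m := by
    have h3 : (L.map (K4H38FP.nc (E + 1))).sum ≤ (L.map (K4H38FP.nc (E + 1))).length • sz E m := by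
      refine List.sum_le_card_nsmul _ _ fun x hx => ?_
      obtain ⟨v, hv, rfl⟩ := List.mem_map.1 hx
      rw [← sz_eq]
      refine sz_mono E (hs v ?_)
      rw [← hc, Multiset.mem_coe, ← hLl]
      exact List.mem_append_left _ hv
    rw [List.length_map, smul_eq_mul] at h3
    refine h3.trans (Nat.mul_le_mul_right _ ?_)
    rw [hL, List.length_take]
    exact min_le_left _ _
  have h3 : (s.map (sz E)).sum = (L.map (K4H38FP.nc (E + 1))).sum + (l.map (K4H38FP.nc (E + 1))).sum := by
    rw [← hc, ← hLl, Multiset.map_coe, Multiset.sum_coe, List.map_append, List.sum_append,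
      funext (sz_eq E)]
  rw [Nn_eq, cN_eq] at h
  have h4 := h1.2
  omega

/-- **MODULE hvp** -/
theorem hvp : S_hvp := by
  intro E m e s t hE hs ht h1 h2
  have S := K4H38FP.sys (n := E + 1) (by omega) e
  obtain ⟨l0, hl0⟩ : ∃ l0 : List ℕ, l0 = s.sort (· ≥ ·) := ⟨_, rfl⟩
  have hp : l0.Pairwise (· ≥ ·) := by
    rw [hl0]
    exact Multiset.pairwise_sort _ _
  have hc : (l0 : Multiset ℕ) = s := by
    rw [hl0]
    exact Multiset.sort_eq _ _
  have hsum : (l0.map (K4H38FP.nc (E + 1))).sum = (s.map (sz E)).sum := by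
    rw [← hc, Multiset.map_coe, Multiset.sum_coe, funext (sz_eq E)]
  have h3 := K4H38CX.vdim (n := E + 1) (by omega) e l0
  have h4 := K4H38CX.mixed (n := E + 1) (by omega) e m l0 hp (fun v hv => hs v (by
    rw [← hc, Multiset.mem_coe]
    exact hv))
  rw [hsum, hc, ← Nn_eq] at h3
  rw [hsum, hc, ← Nn_eq, ← sz_eq] at h4
  unfold Kc at h1
  have h5 : K4H38FP.hv ℂ (Fin (E + 1 + 1)) e s + (s.map (sz E)).sum = Nn E e := by
    rcases h4 with h4 | ⟨-, h4⟩
    · exact h4
    · rw [show E + 1 - 2 = E - 1 by omega] at h4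
      omega
  -- adding the simple points
  have h6 : ∀ t : Multiset ℕ, (∀ v ∈ t, v ≤ 1) →
      K4H38FP.hv ℂ (Fin (E + 1 + 1)) e (t + s) ≤
        K4H38FP.hv ℂ (Fin (E + 1 + 1)) e s - (t.map (sz E)).sum := by
    intro t
    induction t using Multiset.induction_on with
    | empty =>
      intro _
      simp
    | cons v t ih =>
      intro hv
      have h7 := ih fun w hw => hv w (Multiset.mem_cons_of_mem hw)
      rw [Multiset.cons_add, Multiset.map_cons, Multiset.sum_cons]
      have hv1 : v = 0 ∨ v = 1 := by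
        have := hv v (Multiset.mem_cons_self _ _)
        omega
      rcases hv1 with rfl | rfl
      · rw [S.h0, sz_zero, zero_add]
        exact h7
      · rw [sz_one]
        have h8 := S.h1 0 (Nat.zero_le _) (t + s)
        rw [S.h0, zero_add] at h8
        by_cases h9 : K4H38FP.gk ℂ (Fin (E + 1 + 1)) e 0 (t + s) = 0
        · have h10 := S.h6 0 (Nat.zero_le _) (t + s) h9
          rw [S.h0] at h10
          omega
        · omega
  have h7 := h6 t ht
  rw [add_comm t s] at h7
  omega

end Pool.Agent.H93.FE
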